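import Mathlib

set_option autoImplicit false

namespace Pool.Agent.TH576.PAC

open MvPolynomial Cardinal Algebra

/-- In a field of infinite transcendence degree there are finite algebraically independent
families of any size. -/
theorem exists_indep {F Om : Type} [Field F] [Field Om] [Algebra F Om]
    (hT : ¬ FinTrdeg F Om) (ι : Type) [Finite ι] :
    ∃ y : ι → Om, AlgebraicIndependent F y := by
  obtain ⟨s, hs⟩ := exists_isTranscendenceBasis F Om
  have hinf : Infinite s := by
    by_contra h
    rw [not_infinite_iff_finite] at h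
    exact hT (FinTrdeg.of_isTranscendenceBasis hs)
  obtain ⟨e⟩ : Nonempty (ι ↪ s) := by
    rw [← Cardinal.le_def]
    exact (Cardinal.mk_lt_aleph0).le.trans (Cardinal.aleph0_le_mk s)
  exact ⟨fun i => (e i : Om), hs.1.comp e e.injective⟩

/-- A finitely generated domain over a field embeds in an algebraically closed field of infinite
transcendence degree. -/
theorem embed {F Om A : Type} [Field F] [Field Om] [Algebra F Om] [IsAlgClosed Om]
    (hT : ¬ FinTrdeg F Om) [CommRing A] [IsDomain A] [Algebra F A] [Algebra.FiniteType F A] :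
    ∃ g : A →ₐ[F] Om, Function.Injective g := by
  obtain ⟨s, hs⟩ := exists_isTranscendenceBasis F A
  have hfin : Finite s := by
    have := trdeg_lt_aleph0_of_finiteType (R := F) (S := A)
    rw [← hs.cardinalMk_eq_trdeg] at this
    exact Cardinal.lt_aleph0_iff_finite.mp this
  obtain ⟨y, hy⟩ := exists_indep (F := F) (Om := Om) hT s
  let R' := Algebra.adjoin F (Set.range ((↑) : s → A))
  have halg : Algebra.IsAlgebraic R' A := hs.isAlgebraic
  let e : MvPolynomial s F ≃ₐ[F] R' := hs.1.aevalEquiv
  let φ : R' →ₐ[F] Om := (MvPolynomial.aeval y).comp e.symm.toAlgHom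
  have hφ : Function.Injective φ := by
    have : Function.Injective (MvPolynomial.aeval (R := F) y) := hy
    exact this.comp e.symm.injective
  letI : Algebra R' Om := φ.toRingHom.toAlgebra
  have hmap : (algebraMap R' Om) = φ.toRingHom := rfl
  haveI : FaithfulSMul R' Om := (faithfulSMul_iff_algebraMap_injective R' Om).mpr hφ
  haveI : IsScalarTower F R' Om := IsScalarTower.of_algebraMap_eq (fun x => (φ.commutes x).symm)
  haveI : Module.IsTorsionFree R' Om := inferInstance
  haveI : Module.IsTorsionFree R' A := inferInstance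
  let g : A →ₐ[R'] Om := IsAlgClosed.lift
  refine ⟨g.restrictScalars F, ?_⟩
  rw [injective_iff_map_eq_zero]
  intro a ha
  by_contra hne
  obtain ⟨r, hr, c, hc⟩ := (halg.isAlgebraic a).exists_nonzero_dvd
    (mem_nonZeroDivisors_of_ne_zero hne)
  have h1 : g (algebraMap R' A r) = 0 := by
    rw [hc, map_mul]
    have : g a = 0 := ha
    rw [this, zero_mul]
  rw [g.commutes] at h1
  exact hr (hφ (by rw [map_zero]; exact h1))

/-- A prime ideal of a polynomial ring over a field is the ideal of a point with coordinates in an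
algebraically closed field of infinite transcendence degree. -/
theorem exists_generic {F Om : Type} [Field F] [Field Om] [Algebra F Om] [IsAlgClosed Om]
    (hT : ¬ FinTrdeg F Om) (n : ℕ) (Q : Ideal (MvPolynomial (Fin n) F)) [hQ : Q.IsPrime] :
    ∃ z : Fin n → Om, ∀ p : MvPolynomial (Fin n) F, aeval z p = 0 ↔ p ∈ Q := by
  obtain ⟨g, hg⟩ := embed (F := F) (Om := Om) (A := MvPolynomial (Fin n) F ⧸ Q) hT
  refine ⟨fun i => g (Ideal.Quotient.mkₐ F Q (X i)), fun p => ?_⟩
  have h : aeval (fun i => g (Ideal.Quotient.mkₐ F Q (X i))) p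
      = g (Ideal.Quotient.mkₐ F Q p) := by
    have : (aeval (fun i => g (Ideal.Quotient.mkₐ F Q (X i))) : MvPolynomial (Fin n) F →ₐ[F] Om)
        = g.comp (Ideal.Quotient.mkₐ F Q) := by
      ext i; simp
    rw [this]; rfl
  rw [h]
  constructor
  · intro h0
    have := hg (h0.trans (map_zero g).symm)
    simpa [Ideal.Quotient.eq_zero_iff_mem] using this
  · intro hp
    have : Ideal.Quotient.mkₐ F Q p = 0 := by
      simpa [Ideal.Quotient.eq_zero_iff_mem] using hp
    rw [this, map_zero]

end Pool.Agent.TH576.PAC
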