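import Mathlib
import Pool.Agent.TH576.PAC.Embed

set_option autoImplicit false

namespace Pool.Agent.TH576.PAC

open MvPolynomial Cardinal Algebra

section Lam

variable {F Om : Type} [Field F] [Field Om] [Algebra F Om] {n : ℕ}

/-- apply a linear functional coefficientwise -/
noncomputable def Lam (l : Om →ₗ[F] F) (p : MvPolynomial (Fin n) Om) : MvPolynomial (Fin n) F :=
  ∑ m ∈ p.support, monomial m (l (coeff m p))

theorem coeff_Lam (l : Om →ₗ[F] F) (p : MvPolynomial (Fin n) Om) (m : Fin n →₀ ℕ) :
    coeff m (Lam l p) = l (coeff m p) := by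
  classical
  simp only [Lam, coeff_sum, coeff_monomial]
  rw [Finset.sum_ite_eq']
  split_ifs with h
  · rfl
  · rw [MvPolynomial.notMem_support_iff.mp h, map_zero]

theorem Lam_add (l : Om →ₗ[F] F) (p q : MvPolynomial (Fin n) Om) :
    Lam l (p + q) = Lam l p + Lam l q := by
  ext m; simp [coeff_Lam]

theorem Lam_map_mul (l : Om →ₗ[F] F) (s : MvPolynomial (Fin n) F) (h : MvPolynomial (Fin n) Om) :
    Lam l (map (algebraMap F Om) s * h) = s * Lam l h := by
  classical
  ext m
  rw [coeff_Lam, coeff_mul, coeff_mul, map_sum]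
  refine Finset.sum_congr rfl (fun x _ => ?_)
  rw [coeff_Lam, coeff_map, ← Algebra.smul_def, map_smul, smul_eq_mul]

theorem Lam_C (l : Om →ₗ[F] F) (w : Om) : Lam l (C w : MvPolynomial (Fin n) Om) = C (l w) := by
  classical
  ext m
  rw [coeff_Lam, coeff_C, coeff_C]
  split_ifs <;> simp

theorem Lam_mem (l : Om →ₗ[F] F) (T : Set (MvPolynomial (Fin n) F))
    {x : MvPolynomial (Fin n) Om}
    (hx : x ∈ Ideal.span (map (algebraMap F Om) '' T)) : Lam l x ∈ Ideal.span T := by
  have key : ∀ h : MvPolynomial (Fin n) Om, Lam l (x * h) ∈ Ideal.span T := by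
    induction hx using Submodule.span_induction with
    | mem x hx =>
      obtain ⟨t, ht, rfl⟩ := hx
      intro h
      rw [Lam_map_mul]
      exact Ideal.mul_mem_right _ _ (Ideal.subset_span ht)
    | zero =>
      intro h
      have : Lam l ((0 : MvPolynomial (Fin n) Om) * h) = 0 := by
        ext m; simp [coeff_Lam]
      rw [this]; exact Ideal.zero_mem _
    | add x y _ _ hx hy =>
      intro h
      rw [add_mul, Lam_add]
      exact Ideal.add_mem _ (hx h) (hy h)
    | smul a x _ hx =>
      intro h
      rw [smul_eq_mul, mul_comm a x, mul_assoc]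
      exact hx _
  simpa using key 1

/-- linear disjointness -/
theorem mem_of_comb (T : Set (MvPolynomial (Fin n) F)) (a b : MvPolynomial (Fin n) F) (w : Om)
    (hw : ∀ c : F, algebraMap F Om c ≠ w)
    (h : map (algebraMap F Om) a + C w * map (algebraMap F Om) b ∈
      Ideal.span (map (algebraMap F Om) '' T)) : b ∈ Ideal.span T := by
  have hw' : w ∉ Submodule.span F ({1} : Set Om) := by
    intro hmem
    rw [Submodule.mem_span_singleton] at hmem
    obtain ⟨c, hc⟩ := hmem
    exact hw c (by rw [← hc, Algebra.smul_def, mul_one])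
  obtain ⟨f, hf, hf'⟩ := Submodule.exists_dual_map_eq_bot_of_notMem hw' inferInstance
  have hf1 : f 1 = 0 := by
    have : f 1 ∈ (Submodule.span F ({1} : Set Om)).map f :=
      Submodule.mem_map_of_mem (Submodule.mem_span_singleton_self 1)
    rw [hf'] at this
    simpa using this
  have h1 := Lam_mem f T h
  have h2 : Lam f (map (algebraMap F Om) a + C w * map (algebraMap F Om) b) = b * C (f w) := by
    rw [Lam_add, mul_comm, Lam_map_mul, Lam_C]
    have : Lam f (map (algebraMap F Om) a) = 0 := by
      have := Lam_map_mul f a (1 : MvPolynomial (Fin n) Om)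
      rw [mul_one] at this
      rw [this, ← C_1, Lam_C, hf1, C_0, mul_zero]
    rw [this, zero_add]
  rw [h2] at h1
  have h3 : b = b * C (f w) * C (f w)⁻¹ := by
    rw [mul_assoc, ← C_mul, mul_inv_cancel₀ hf, C_1, mul_one]
  rw [h3]
  exact Ideal.mul_mem_right _ _ h1

end Lam

variable {Om : Type} [Field Om] [CharZero Om] [IsAlgClosed Om]

/-- rational numbers that are squares in `F` are squares of rational numbers -/
def PropP (F : IntermediateField ℚ Om) : Prop :=
  ∀ x ∈ F, ∀ d : ℚ, x ^ 2 = algebraMap ℚ Om d → ∃ y : ℚ, y ^ 2 = d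

theorem step (hT : ¬ FinTrdeg ℚ Om) (F : IntermediateField ℚ Om) (hF : FinTrdeg ℚ F)
    (hP : PropP F) (n : ℕ) (T : Set (MvPolynomial (Fin n) F))
    (hprime : (Ideal.span (map (algebraMap F Om) '' T)).IsPrime) :
    ∃ F' : IntermediateField ℚ Om, F ≤ F' ∧ FinTrdeg ℚ F' ∧ PropP F' ∧
      ∃ z : Fin n → Om, (∀ i, z i ∈ F') ∧ ∀ p ∈ T, aeval z p = 0 := by
  have hT' : ¬ FinTrdeg F Om := fun h => hT (FinTrdeg.trans ℚ F Om)
  set J := Ideal.span (map (algebraMap F Om) '' T) with hJ
  let Q : Ideal (MvPolynomial (Fin n) F) := J.comap (map (algebraMap F Om))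
  have hQ : Q.IsPrime := Ideal.IsPrime.comap _
  obtain ⟨z, hz⟩ := exists_generic (F := F) (Om := Om) hT' n Q
  let E : IntermediateField F Om := IntermediateField.adjoin F (Set.range z)
  have hE : FinTrdeg F E := by
    have : Algebra.EssFiniteType F E := by
      rw [IntermediateField.essFiniteType_iff]
      exact IntermediateField.fg_adjoin_of_finite (Set.finite_range z)
    infer_instance
  refine ⟨E.restrictScalars ℚ, ?_, ?_, ?_, z, ?_, ?_⟩
  · intro x hx
    exact E.algebraMap_mem (⟨x, hx⟩ : F)
  · exact FinTrdeg.trans ℚ F E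
  · intro x hx d hd
    have hx' : x ∈ IntermediateField.adjoin F (Set.range z) := hx
    rw [IntermediateField.mem_adjoin_range_iff] at hx'
    obtain ⟨a, b, hab⟩ := hx'
    by_cases hb : aeval z b = 0
    · rw [hb, div_zero] at hab
      refine ⟨0, ?_⟩
      rw [hab] at hd
      have : algebraMap ℚ Om d = algebraMap ℚ Om 0 := by rw [← hd]; simp
      have := (algebraMap ℚ Om).injective this
      rw [this]; simp
    · obtain ⟨w, hw⟩ := IsAlgClosed.exists_pow_nat_eq (algebraMap ℚ Om d) (n := 2) (by norm_num)
      by_cases hwF : ∃ c : F, algebraMap F Om c = w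
      · obtain ⟨c, hc⟩ := hwF
        exact hP w (hc ▸ c.2) d hw
      · push Not at hwF
        exfalso
        apply hb
        rw [hz]
        have h1 : a ^ 2 - C (algebraMap ℚ F d) * b ^ 2 ∈ Q := by
          rw [← hz]
          have e1 : aeval z a = x * aeval z b := by
            rw [hab]; field_simp
          simp only [map_sub, map_mul, map_pow, e1, aeval_C]
          rw [mul_pow, hd]
          rw [← IsScalarTower.algebraMap_apply ℚ F Om]
          ring
        have h2 : (map (algebraMap F Om) a + C w * map (algebraMap F Om) b) *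
            (map (algebraMap F Om) a + C w * map (algebraMap F Om) (-b)) ∈ J := by
          have : (map (algebraMap F Om) a + C w * map (algebraMap F Om) b) *
            (map (algebraMap F Om) a + C w * map (algebraMap F Om) (-b)) =
            map (algebraMap F Om) (a ^ 2 - C (algebraMap ℚ F d) * b ^ 2) := by
            simp only [map_sub, map_mul, map_pow, map_neg, map_C]
            rw [← IsScalarTower.algebraMap_apply ℚ F Om, ← hw]
            simp only [map_pow]
            ring
          rw [this]
          exact h1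
        have key : ∀ b : MvPolynomial (Fin n) F, b ∈ Ideal.span T → b ∈ Q := by
          intro b hb
          have : Ideal.span T ≤ Q := by
            rw [Ideal.span_le]
            intro t ht
            exact Ideal.subset_span (Set.mem_image_of_mem _ ht)
          exact this hb
        rcases hprime.mem_or_mem h2 with h | h
        · exact key _ (mem_of_comb T a b w hwF h)
        · have := key _ (mem_of_comb T a (-b) w hwF h)
          simpa using this
  · intro i
    exact IntermediateField.subset_adjoin F _ (Set.mem_range_self i)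
  · intro p hp
    rw [hz]
    exact Ideal.subset_span (Set.mem_image_of_mem _ hp)

end Pool.Agent.TH576.PAC
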