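import Mathlib
import Pool.Agent.TH576.PAC.Step

set_option autoImplicit false

namespace Pool.Agent.TH576.PAC

open MvPolynomial Cardinal Algebra

variable {Om : Type} [Field Om] [CharZero Om]

/-- systems of equations over the big field -/
abbrev Task (Om : Type) [Field Om] : Type := Σ n : ℕ, Finset (MvPolynomial (Fin n) Om)

/-- stages of the tower -/
abbrev Stage (Om : Type) [Field Om] [CharZero Om] : Type :=
  {F : IntermediateField ℚ Om // FinTrdeg ℚ F ∧ PropP F}

/-- `F'` is an admissible extension of `F` containing a solution of the task -/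
def Good (t : Task Om) (F F' : IntermediateField ℚ Om) : Prop :=
  F ≤ F' ∧ (FinTrdeg ℚ F' ∧ PropP F') ∧
    ∃ z : Fin t.1 → Om, (∀ i, z i ∈ F') ∧ ∀ p ∈ t.2, eval z p = 0

open Classical in
/-- one step of the tower -/
noncomputable def next (t : Task Om) (F : Stage Om) : Stage Om :=
  if h : ∃ F', Good t F.1 F' then ⟨h.choose, h.choose_spec.2.1⟩ else F

theorem le_next (t : Task Om) (F : Stage Om) : F.1 ≤ (next t F).1 := by
  classical
  unfold next
  split_ifs with h
  · exact h.choose_spec.1
  · exact le_rfl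

theorem next_spec (t : Task Om) (F : Stage Om) (h : ∃ F', Good t F.1 F') :
    ∃ z : Fin t.1 → Om, (∀ i, z i ∈ (next t F).1) ∧ ∀ p ∈ t.2, eval z p = 0 := by
  classical
  unfold next
  rw [dif_pos h]
  exact h.choose_spec.2.2

theorem propP_bot : PropP (⊥ : IntermediateField ℚ Om) := by
  intro x hx d hd
  rw [IntermediateField.mem_bot] at hx
  obtain ⟨y, rfl⟩ := hx
  refine ⟨y, ?_⟩
  apply (algebraMap ℚ Om).injective
  rw [← hd, map_pow]

/-- the tower -/
noncomputable def tower (t : ℕ → Task Om) : ℕ → Stage Om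
  | 0 => ⟨⊥, by
      constructor
      · infer_instance
      · exact propP_bot⟩
  | m + 1 => next (t m) (tower t m)

theorem tower_mono (t : ℕ → Task Om) : Monotone (fun m => (tower t m).1) :=
  monotone_nat_of_le_succ (fun m => le_next (t m) (tower t m))

/-- the limit field -/
noncomputable def lim (t : ℕ → Task Om) : IntermediateField ℚ Om := ⨆ m, (tower t m).1

theorem mem_lim (t : ℕ → Task Om) (x : Om) : x ∈ lim t ↔ ∃ m, x ∈ (tower t m).1 := by
  have := IntermediateField.coe_iSup_of_directed (t := fun m => (tower t m).1)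
    (tower_mono t).directed_le
  unfold lim
  rw [← SetLike.mem_coe, this, Set.mem_iUnion]
  rfl

theorem propP_lim (t : ℕ → Task Om) : PropP (lim t) := by
  intro x hx d hd
  rw [mem_lim] at hx
  obtain ⟨m, hm⟩ := hx
  exact (tower t m).2.2 x hm d hd

theorem finset_lim (t : ℕ → Task Om) (s : Finset Om) (hs : ∀ x ∈ s, x ∈ lim t) :
    ∃ m, ∀ x ∈ s, x ∈ (tower t m).1 := by
  classical
  induction s using Finset.induction_on with
  | empty => exact ⟨0, by simp⟩
  | insert a s _ ih =>
    obtain ⟨m, hm⟩ := ih (fun x hx => hs x (Finset.mem_insert_of_mem hx))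
    obtain ⟨m', hm'⟩ := (mem_lim t a).mp (hs a (Finset.mem_insert_self a s))
    refine ⟨max m m', fun x hx => ?_⟩
    rcases Finset.mem_insert.mp hx with rfl | hx
    · exact tower_mono t (le_max_right m m') hm'
    · exact tower_mono t (le_max_left m m') (hm x hx)

theorem solve [IsAlgClosed Om] (hT : ¬ FinTrdeg ℚ Om) (t : ℕ → Task Om)
    (ht : ∀ (T : Task Om) (M : ℕ), ∃ m, M ≤ m ∧ t m = T)
    (n : ℕ) (T : Finset (MvPolynomial (Fin n) (lim t)))
    (hprime : (Ideal.span (map (algebraMap (lim t) Om) ''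
      (T : Set (MvPolynomial (Fin n) (lim t))))).IsPrime) :
    ∃ z : Fin n → lim t, ∀ p ∈ T, eval z p = 0 := by
  classical
  let T' : Finset (MvPolynomial (Fin n) Om) := T.image (map (algebraMap (lim t) Om))
  obtain ⟨M, hM⟩ := finset_lim t (T'.biUnion fun p => p.support.image fun m => coeff m p) (by
    intro x hx
    simp only [Finset.mem_biUnion, Finset.mem_image, T'] at hx
    obtain ⟨p, ⟨q, hq, rfl⟩, m, hm, rfl⟩ := hx
    rw [coeff_map]
    exact (coeff m q).2)
  obtain ⟨m, hMm, hm⟩ := ht ⟨n, T'⟩ M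
  have hcoef : ∀ p ∈ T', ∀ k, coeff k p ∈ (tower t m).1 := by
    intro p hp k
    by_cases hk : k ∈ p.support
    · apply tower_mono t hMm
      apply hM
      rw [Finset.mem_biUnion]
      exact ⟨p, hp, Finset.mem_image_of_mem _ hk⟩
    · rw [notMem_support_iff.mp hk]
      exact zero_mem _
  have hran : ∀ p ∈ T', ∃ q : MvPolynomial (Fin n) (tower t m).1,
      map (algebraMap (tower t m).1 Om) q = p := by
    intro p hp
    refine ⟨∑ k ∈ p.support, monomial k ⟨coeff k p, hcoef p hp k⟩, ?_⟩
    rw [map_sum]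
    simp only [map_monomial]
    exact (as_sum p).symm
  let T0 : Set (MvPolynomial (Fin n) (tower t m).1) :=
    (map (algebraMap (tower t m).1 Om)) ⁻¹' (T' : Set _)
  have hT0 : map (algebraMap (tower t m).1 Om) '' T0 = (T' : Set _) := by
    apply Set.image_preimage_eq_of_subset
    intro p hp
    exact hran p hp
  have hprime' : (Ideal.span (map (algebraMap (tower t m).1 Om) '' T0)).IsPrime := by
    rw [hT0]
    rw [Finset.coe_image]
    exact hprime
  obtain ⟨F', h1, h2, h3, z, hz1, hz2⟩ :=
    step hT (tower t m).1 (tower t m).2.1 (tower t m).2.2 n T0 hprime'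
  have hgood : ∃ F', Good (t m) (tower t m).1 F' := by
    rw [hm]
    refine ⟨F', h1, ⟨h2, h3⟩, z, hz1, ?_⟩
    intro p hp
    obtain ⟨q, hq⟩ := hran p hp
    rw [← hq, eval_map, ← aeval_def]
    apply hz2
    change map (algebraMap (tower t m).1 Om) q ∈ (T' : Set (MvPolynomial (Fin n) Om))
    rw [hq]; exact hp
  have hstep : (next (t m) (tower t m)) = tower t (m + 1) := rfl
  have hspec := next_spec (t m) (tower t m) hgood
  rw [hstep, hm] at hspec
  obtain ⟨w, hw1, hw2⟩ := hspec
  refine ⟨fun i => ⟨w i, (mem_lim t _).mpr ⟨m + 1, hw1 i⟩⟩, ?_⟩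
  intro p hp
  have h := hw2 (map (algebraMap (lim t) Om) p) (Finset.mem_image_of_mem _ hp)
  apply (algebraMap (lim t) Om).injective
  rw [map_zero, ← h, eval_map]
  rw [← eval₂_id, hom_eval₂]
  rfl

end Pool.Agent.TH576.PAC
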