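import Mathlib
import Pool.Agent.TH576.PAC.Tower

set_option autoImplicit false

namespace Pool.Agent.TH576.PAC

open MvPolynomial Cardinal Algebra

theorem not_finTrdeg_of_injective {L : Type} [Field L] [CharZero L]
    (f : MvPolynomial ℕ ℚ →+* L) (hf : Function.Injective f) : ¬ FinTrdeg ℚ L := by
  intro h
  have hind : AlgebraicIndependent ℚ (fun i : ℕ => f (X i)) := by
    have : (aeval (fun i : ℕ => f (X i)) : MvPolynomial ℕ ℚ →ₐ[ℚ] L).toRingHom = f := by
      apply MvPolynomial.ringHom_ext
      · intro r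
        have h2 : (f.comp (C : ℚ →+* MvPolynomial ℕ ℚ)) r = algebraMap ℚ L r := by
          rw [Subsingleton.elim (f.comp (C : ℚ →+* MvPolynomial ℕ ℚ)) (algebraMap ℚ L)]
        have h3 : f (C r) = algebraMap ℚ L r := h2
        rw [h3]
        simp
      · intro i
        simp
    change Function.Injective (aeval (fun i : ℕ => f (X i)) : MvPolynomial ℕ ℚ →ₐ[ℚ] L).toRingHom
    rw [this]
    exact hf
  have := finite_of_algebraicIndependent hind
  exact not_finite ℕ

theorem exists_big : ∃ (L : Type) (_ : Field L), ∃ (_ : CharZero L), IsAlgClosed L ∧ Countable L ∧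
    ¬ FinTrdeg ℚ L := by
  let k := FractionRing (MvPolynomial ℕ ℚ)
  have h0 : CharZero k := by
    exact charZero_of_injective_algebraMap (IsFractionRing.injective (MvPolynomial ℕ ℚ) k)
  have h1 : CharZero (AlgebraicClosure k) :=
    charZero_of_injective_algebraMap (FaithfulSMul.algebraMap_injective k (AlgebraicClosure k))
  refine ⟨AlgebraicClosure k, inferInstance, h1, inferInstance, ?_, ?_⟩
  · have hc : #(MvPolynomial ℕ ℚ) ≤ ℵ₀ := by
      have := MvPolynomial.cardinalMk_le_max (σ := ℕ) (R := ℚ)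
      refine this.trans ?_
      simp
    have hk : #k ≤ ℵ₀ := (IsLocalization.cardinalMk_le (nonZeroDivisors (MvPolynomial ℕ ℚ))).trans hc
    have hK : #(AlgebraicClosure k) ≤ ℵ₀ :=
      (Algebra.IsAlgebraic.cardinalMk_le_max k (AlgebraicClosure k)).trans (max_le hk le_rfl)
    exact Cardinal.mk_le_aleph0_iff.mp hK
  · exact not_finTrdeg_of_injective
      ((algebraMap k (AlgebraicClosure k)).comp (algebraMap (MvPolynomial ℕ ℚ) k))
      ((FaithfulSMul.algebraMap_injective k (AlgebraicClosure k)).comp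
        (IsFractionRing.injective (MvPolynomial ℕ ℚ) k))

/-- the field `K` of the counterexample inside a big algebraically closed field -/
theorem exists_field : ∃ (Om : Type) (_ : Field Om) (_ : CharZero Om) (K : IntermediateField ℚ Om),
    IsAlgClosed Om ∧ PropP K ∧
    ∀ (n : ℕ) (T : Finset (MvPolynomial (Fin n) K)),
      (Ideal.span (map (algebraMap K Om) '' (T : Set (MvPolynomial (Fin n) K)))).IsPrime →
      ∃ z : Fin n → K, ∀ p ∈ T, eval z p = 0 := by
  obtain ⟨Om, i1, i2, h1, h2, h3⟩ := exists_big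
  have hcount : ∀ n : ℕ, Countable (MvPolynomial (Fin n) Om) := by
    intro n
    rw [← Cardinal.mk_le_aleph0_iff]
    refine (MvPolynomial.cardinalMk_le_max).trans ?_
    simp
  have hT : Countable (Task Om) := by
    unfold Task
    infer_instance
  have hne : Nonempty (Task Om) := ⟨⟨0, ∅⟩⟩
  obtain ⟨u, hu⟩ := exists_surjective_nat (Task Om)
  refine ⟨Om, i1, i2, lim (fun m => u (Nat.unpair m).1), h1, propP_lim _, ?_⟩
  intro n T hT
  refine solve h3 _ ?_ n T hT
  intro T M
  obtain ⟨i, hi⟩ := hu T
  refine ⟨Nat.pair i M, Nat.right_le_pair i M, ?_⟩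
  simp [hi]

end Pool.Agent.TH576.PAC
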