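import Mathlib

set_option autoImplicit false

namespace Pool.Agent.TH576.PAC

open scoped IntermediateField

theorem mul_prime_not_square {p q : ℕ} (hp : p.Prime) (hq : q.Prime) (hne : p ≠ q) :
    ¬ ∃ y : ℚ, y ^ 2 = ((p * q : ℕ) : ℚ) := by
  rintro ⟨y, hy⟩
  have h1 : IsSquare ((p * q : ℕ) : ℚ) := ⟨y, by rw [← hy, sq]⟩
  rw [Rat.isSquare_natCast_iff] at h1
  obtain ⟨m, hm⟩ := h1
  have h2 : p ∣ m := by
    have : p ∣ m * m := hm ▸ Dvd.intro q rfl
    exact (hp.dvd_mul.mp this).elim id id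
  obtain ⟨k, rfl⟩ := h2
  have h3 : q = p * (k * k) := by
    have : p * q = p * (p * (k * k)) := by rw [hm]; ring
    exact Nat.eq_of_mul_eq_mul_left hp.pos this
  have h4 : p ∣ q := Dvd.intro _ h3.symm
  exact hne ((Nat.prime_dvd_prime_iff_eq hp hq).mp h4)

theorem not_topFG {K : Type} [Field K] [CharZero K]
    (hsq : ∀ (x : K) (d : ℚ), x ^ 2 = (d : K) → ∃ y : ℚ, y ^ 2 = d) :
    ¬ ∃ S : Set Gal(SeparableClosure K/K), S.Finite ∧
      (Subgroup.closure S).topologicalClosure = ⊤ := by
  rintro ⟨S, hS, htop⟩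
  have : Finite S := hS
  have : CharZero (SeparableClosure K) := charZero_of_injective_algebraMap
    (FaithfulSMul.algebraMap_injective K (SeparableClosure K))
  have : IsAlgClosed (SeparableClosure K) := inferInstance
  have hr : ∀ p : ℕ, ∃ r : SeparableClosure K, r ^ 2 = (p : SeparableClosure K) :=
    fun p => IsAlgClosed.exists_pow_nat_eq _ (by norm_num)
  choose r hr using hr
  have hinf : Infinite {p : ℕ // p.Prime} := Nat.infinite_setOfPred_prime.to_subtype
  obtain ⟨p, q, hne, hpq⟩ := Finite.exists_ne_map_eq_of_infinite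
    (fun (p : {p : ℕ // p.Prime}) (σ : S) => (σ.1 (r p.1) = r p.1))
  have hpq' : ∀ σ ∈ S, (σ (r p.1) = r p.1 ↔ σ (r q.1) = r q.1) := by
    intro σ hσ
    have := congrFun hpq ⟨σ, hσ⟩
    simpa using this
  have hpm : ∀ (σ : Gal(SeparableClosure K/K)) (n : ℕ), σ (r n) = r n ∨ σ (r n) = - r n := by
    intro σ n
    have : (σ (r n)) ^ 2 = (r n) ^ 2 := by
      rw [← map_pow, hr, map_natCast]
    exact sq_eq_sq_iff_eq_or_eq_neg.mp this
  set x := r p.1 * r q.1 with hx
  have hfix : ∀ σ ∈ S, σ x = x := by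
    intro σ hσ
    rw [hx, map_mul]
    by_cases h : σ (r p.1) = r p.1
    · rw [h, (hpq' σ hσ).mp h]
    · have h' : ¬ σ (r q.1) = r q.1 := fun h2 => h ((hpq' σ hσ).mpr h2)
      rw [(hpm σ p.1).resolve_left h, (hpm σ q.1).resolve_left h']
      ring
  have hmem : ∀ σ : Gal(SeparableClosure K/K), σ ∈ (K⟮x⟯).fixingSubgroup ↔ σ x = x := by
    intro σ
    constructor
    · intro h
      exact (IntermediateField.mem_fixingSubgroup_iff _ _).mp h x
        (IntermediateField.mem_adjoin_simple_self K x)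
    · intro h
      rw [IntermediateField.mem_fixingSubgroup_iff]
      intro y hy
      exact (IntermediateField.forall_mem_adjoin_smul_eq_self_iff K (S := {x}) σ).mpr
        (by intro z hz; rw [Set.mem_singleton_iff.mp hz]; exact h) y hy
  have hle : (Subgroup.closure S).topologicalClosure ≤ (K⟮x⟯).fixingSubgroup := by
    apply Subgroup.topologicalClosure_minimal
    · rw [Subgroup.closure_le]
      intro σ hσ
      exact (hmem σ).mpr (hfix σ hσ)
    · exact InfiniteGalois.fixingSubgroup_isClosed _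
  rw [htop] at hle
  have hall : ∀ σ : Gal(SeparableClosure K/K), σ x = x := by
    intro σ
    exact (hmem σ).mp (hle (Subgroup.mem_top σ))
  have hbot : x ∈ (⊥ : IntermediateField K (SeparableClosure K)) :=
    (InfiniteGalois.mem_bot_iff_fixed x).mpr hall
  rw [IntermediateField.mem_bot] at hbot
  obtain ⟨y, hy⟩ := hbot
  have hy2 : y ^ 2 = (((p.1 * q.1 : ℕ) : ℚ) : K) := by
    apply (algebraMap K (SeparableClosure K)).injective
    rw [map_pow, hy, hx, mul_pow, hr, hr]
    simp
  exact mul_prime_not_square p.2 q.2 (fun h => hne (Subtype.ext h)) (hsq y _ hy2)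

end Pool.Agent.TH576.PAC
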