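import Mathlib

set_option autoImplicit false

namespace Pool.Agent.TH576.PAC

open MvPolynomial TensorProduct

/-- every system of equations over `K` whose ideal is prime over the big field is solvable in `K` -/
def Solves (K Om : Type) [Field K] [Field Om] [Algebra K Om] : Prop :=
  ∀ (n : ℕ) (T : Finset (MvPolynomial (Fin n) K)),
      (Ideal.span (map (algebraMap K Om) '' (T : Set (MvPolynomial (Fin n) K)))).IsPrime →
      ∃ z : Fin n → K, ∀ p ∈ T, eval z p = 0

theorem alg_point {K Om A : Type} [Field K] [Field Om] [Algebra K Om] [CommRing A] [Algebra K A]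
    [Algebra.FiniteType K A] (hdom : IsDomain (A ⊗[K] Om)) (hsolve : Solves K Om) :
    Nonempty (A →ₐ[K] K) := by
  obtain ⟨n, π, hπ⟩ := Algebra.FiniteType.iff_quotient_mvPolynomial''.mp
    (inferInstance : Algebra.FiniteType K A)
  obtain ⟨T, hT⟩ : (RingHom.ker π).FG := IsNoetherian.noetherian _
  have hdom' : IsDomain (Om ⊗[K] A) :=
    (Algebra.TensorProduct.comm K A Om).symm.toRingEquiv.toMulEquiv.isDomain _
  let e := MvPolynomial.algebraTensorAlgEquiv (σ := Fin n) K Om
  let m := Algebra.TensorProduct.map (AlgHom.id K Om) π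
  have hker : RingHom.ker m = (RingHom.ker π).map
      (Algebra.TensorProduct.includeRight : MvPolynomial (Fin n) K →ₐ[K] Om ⊗[K] _) :=
    Algebra.TensorProduct.lTensor_ker π hπ
  have hprime : (Ideal.span (map (algebraMap K Om) '' (T : Set (MvPolynomial (Fin n) K)))).IsPrime := by
    have h1 : (RingHom.ker (m.toRingHom.comp e.symm.toRingEquiv.toRingHom)).IsPrime :=
      RingHom.ker_isPrime _
    have h2 : RingHom.ker (m.toRingHom.comp e.symm.toRingEquiv.toRingHom) =
        Ideal.span (map (algebraMap K Om) '' (T : Set (MvPolynomial (Fin n) K))) := by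
      have h3 : RingHom.ker (m.toRingHom.comp e.symm.toRingEquiv.toRingHom) =
          (RingHom.ker m).comap e.symm.toRingEquiv.toRingHom := rfl
      have h4 : (RingHom.ker m).comap e.symm.toRingEquiv.toRingHom
          = (RingHom.ker m).map e.toRingEquiv.toRingHom := by
        exact Ideal.comap_symm e.toRingEquiv
      rw [h3, h4, hker, ← hT]
      rw [Ideal.map_span]
      have h5 : Ideal.map e.toRingEquiv.toRingHom
          (Ideal.span ((Algebra.TensorProduct.includeRight :
            MvPolynomial (Fin n) K →ₐ[K] Om ⊗[K] _) '' (T : Set (MvPolynomial (Fin n) K))))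
          = Ideal.span (e.toRingEquiv.toRingHom '' ((Algebra.TensorProduct.includeRight :
            MvPolynomial (Fin n) K →ₐ[K] Om ⊗[K] _) '' (T : Set (MvPolynomial (Fin n) K)))) :=
        Ideal.map_span _ _
      rw [h5, Set.image_image]
      congr 1
      apply Set.image_congr
      intro p _
      change e (1 ⊗ₜ[K] p) = _
      simp [e]
    rw [← h2]
    exact h1
  obtain ⟨z, hz⟩ := hsolve n T hprime
  have hle : ∀ p : MvPolynomial (Fin n) K, π p = 0 → aeval z p = 0 := by
    intro p hp
    have hp' : p ∈ Ideal.span (T : Set (MvPolynomial (Fin n) K)) := by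
      rw [hT]
      exact hp
    have : Ideal.span (T : Set (MvPolynomial (Fin n) K)) ≤ RingHom.ker (aeval (R := K) z) := by
      rw [Ideal.span_le]
      intro t ht
      change aeval z t = 0
      rw [aeval_eq_eval]
      exact hz t ht
    exact this hp'
  let q : (MvPolynomial (Fin n) K ⧸ RingHom.ker π) →ₐ[K] K :=
    Ideal.Quotient.liftₐ (RingHom.ker π) (aeval z) hle
  exact ⟨q.comp (Ideal.quotientKerAlgEquivOfSurjective hπ).symm.toAlgHom⟩

end Pool.Agent.TH576.PAC
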