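import Mathlib
import Pool.Agent.TH576.PAC.Alg

set_option autoImplicit false

namespace Pool.Agent.TH576.PAC

open CategoryTheory Limits AlgebraicGeometry TensorProduct

theorem scheme_point {K Om : Type} [Field K] [Field Om] [Algebra K Om] (hsolve : Solves K Om)
    (X : Scheme.{0}) (f : X ⟶ Spec (.of K)) [LocallyOfFiniteType f] [GeometricallyIntegral f] :
    ∃ s : Spec (.of K) ⟶ X, s ≫ f = 𝟙 _ := by
  have hX : IsIntegral X := GeometricallyIntegral.isIntegral_of_subsingleton f
  obtain ⟨x⟩ : Nonempty X := inferInstance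
  obtain ⟨U, hU, hxU, -⟩ := exists_isAffineOpen_mem_and_subset (X := X) (x := x) (U := ⊤) trivial
  let A : CommRingCat := Γ(X, U)
  let j : Spec A ⟶ X := hU.fromSpec
  have hj : IsOpenImmersion j := inferInstance
  obtain ⟨φ, hφ⟩ := Spec.map_surjective (j ≫ f)
  have hft : LocallyOfFiniteType (Spec.map φ) := by rw [hφ]; infer_instance
  have hft' : φ.hom.FiniteType := by
    rwa [HasRingHomProperty.Spec_iff (P := @LocallyOfFiniteType)] at hft
  algebraize [φ.hom]
  let y : Spec (.of Om) ⟶ Spec (.of K) := Spec.map (CommRingCat.ofHom (algebraMap K Om))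
  have hP : IsIntegral (pullback f y) :=
    pullback_of_geometrically GeometricallyIntegral.geometrically_isIntegral Om y
  have hne : Nonempty (Spec A) := ⟨hU.isoSpec.hom ⟨x, hxU⟩⟩
  have hnt : Nontrivial A := by
    exact PrimeSpectrum.nonempty_iff_nontrivial.mp hne
  have hφ' : φ = CommRingCat.ofHom (algebraMap K A) := rfl
  have hpb : IsPullback (pullback.snd j (pullback.fst f y) ≫ pullback.snd f y)
      (pullback.fst j (pullback.fst f y)) y (j ≫ f) :=
    (IsPullback.of_hasPullback j (pullback.fst f y)).flip.paste_horiz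
      (IsPullback.of_hasPullback f y).flip
  rw [← hφ] at hpb
  let i1 : pullback j (pullback.fst f y) ≅ pullback (Spec.map φ) y := hpb.flip.isoPullback
  let i2 : pullback (Spec.map φ) y ≅ Spec (.of (A ⊗[K] Om)) := pullbackSpecIso K A Om
  have hnt2 : Nontrivial (A ⊗[K] Om) := inferInstance
  have hne2 : Nonempty (Spec (.of (A ⊗[K] Om))) :=
    PrimeSpectrum.nonempty_iff_nontrivial.mpr hnt2
  have hne3 : Nonempty (pullback j (pullback.fst f y) : Scheme) :=
    ⟨(i1 ≪≫ i2).inv hne2.some⟩
  have hint : IsIntegral (pullback j (pullback.fst f y)) :=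
    isIntegral_of_isOpenImmersion (pullback.snd j (pullback.fst f y))
  have hint2 : IsIntegral (Spec (.of (A ⊗[K] Om))) :=
    isIntegral_of_isOpenImmersion (i1 ≪≫ i2).inv
  have hdom : IsDomain (A ⊗[K] Om) := (affine_isIntegral_iff (.of (A ⊗[K] Om))).mp hint2
  obtain ⟨g⟩ := alg_point (K := K) (Om := Om) (A := A) hdom hsolve
  refine ⟨Spec.map (CommRingCat.ofHom g.toRingHom) ≫ j, ?_⟩
  rw [Category.assoc, ← hφ, ← Spec.map_comp, ← Spec.map_id]
  congr 1
  ext a
  exact g.commutes a

end Pool.Agent.TH576.PAC
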